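import Pool.Agent.Q175.RW.FT3

/-!
# A fourth moment theorem for Laplace eigenfunctions on surfaces (MP_4fa179_mp)

A Riemannian surface in isothermal coordinates: an open set `Ω ⊆ ℂ` with the metric `ρ |dz|²`, of
finite area; it need not be relatively compact (a compact surface cut along arcs). `dx f z`,
`dy f z` are the partial derivatives `fderiv ℝ f z 1`, `fderiv ℝ f z I`, and
`lap f = dx (dx f) + dy (dy f)`; `TF Ω φ` says that `φ : ℂ → ℝ` is smooth with compact support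
contained in `Ω`.

In the metric rescaled by `λ` the operator `D = (λ ρ)^{-1/2} (∂x - i ∂y)` is the derivative
`∂_1 - i ∂_2` in the conformal orthonormal frame; at a unit momentum of direction `α` its symbol is
`sym α = i exp(-iα)`. The functions `W k` (`k ∈ ℤ`) are the local field `u` with the Fourier
multiplier `(sym α)^k`; they determine all derivatives of the rescaled eigenfunction, so that their
joint moments are those of the Benjamini-Schramm limits. The hypothesis `hsc` says that `u n` has the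
semiclassical measure `m(z) κ_z(dα) dvol(z)` on the unit cosphere bundle; `hpar` says that `κ_z` has
no atoms modulo `π`. Quantum ergodicity is NOT assumed.

The two further hypotheses are global and scalar: the total mass tends to the area (the
normalisation), and the limit superior of the total fourth moment is at most `3` times the area.
The conclusion is that the mass is equidistributed and that all third and fourth order statistics of
the local field are those of the Gaussian wave with spectral measure `κ_z`.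

Proof. The lower bound `liminf ∫ φ u⁴ ≥ 3 ∫ φ m²` gives `∫ m² ≤ area`; bounded fourth moments exclude
escape of mass, so `∫ m = area` and `m = 1`. Then the lower bound on all open sets and the total
upper bound give the convergence of all local fourth moments of `u`, and the excess inequality of
the fourth order structure theorem gives those of the field.
-/

set_option autoImplicit false
open MeasureTheory Filter Topology Complex ProbabilityTheory
open scoped ContDiff ENNReal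

namespace Pool.Agent.Results.MP_4fa179_mp.FourthMomentTheorem

open Pool.Agent.W745.RW (TF dx dy lap)

/-- the normalised frame derivative `(λ ρ)^{-1/2} (∂x - i ∂y)` -/
noncomputable def D (ρ : ℂ → ℝ) (lam : ℝ) (f : ℂ → ℂ) (z : ℂ) : ℂ :=
  ((1 / √(lam * ρ z) : ℝ) : ℂ) * (dx f z - I * dy f z)

/-- the symbol of `D` at a unit momentum of direction `α` -/
noncomputable def sym (α : ℝ) : ℂ := I * Complex.exp (-(α : ℂ) * I)

/-- the probability that two independent directions of law `ν` are parallel (equal or opposite) -/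
noncomputable def parallel (ν : Measure ℝ) : ℝ :=
  (ν.prod ν).real {p | Real.sin (p.1 - p.2) = 0}

/-- the area measure of the metric `ρ |dz|²` on `Ω` -/
noncomputable def area (Ω : Set ℂ) (ρ : ℂ → ℝ) : Measure ℂ :=
  (volume.restrict Ω).withDensity (fun z => ENNReal.ofReal (ρ z))

/-- `W k = D^k u` for `k ≥ 0` and `W k = (-1)^k conj (D^|k| u)` for `k < 0` -/
noncomputable def W (ρ : ℂ → ℝ) (lam : ℝ) (u : ℂ → ℝ) : ℤ → ℂ → ℂ
  | Int.ofNat k => (D ρ lam)^[k] (fun w => (u w : ℂ))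
  | Int.negSucc k => fun z => (-1) ^ (k + 1) *
      (starRingEnd ℂ) ((D ρ lam)^[k + 1] (fun w => (u w : ℂ)) z)

/-- covariance of `W a`, `W b` for the Gaussian wave with spectral measure `κ_z`:
`(-1)^a ∫ (sym α)^(a+b) dκ_z(α)` for even `a + b`, and `0` for odd `a + b` -/
noncomputable def C (κ : Kernel ℂ ℝ) (a b : ℤ) (z : ℂ) : ℂ :=
  if Even (a + b) then (-1) ^ a.natAbs * ∫ α, sym α ^ (a + b) ∂(κ z) else 0

/-- the Gaussian fourth moment `E[W a W b W c W d]` at `z` -/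
noncomputable def G (κ : Kernel ℂ ℝ) (a b c d : ℤ) (z : ℂ) : ℂ :=
  C κ a b z * C κ c d z + C κ a c z * C κ b d z + C κ a d z * C κ b c z

/-- **Result.** Let `u n` be real solutions of `Δu + λ_n u = 0` for the metric `ρ |dz|²` on `Ω`
(that is `lap u + λ_n ρ u = 0`), of finite area, `λ_n → ∞`, with semiclassical measure
`m(z) κ_z dvol(z)`, `m` locally square integrable and `κ_z` without atoms modulo `π`. Suppose that
`∫ u² dvol → area` and `limsup ∫ u⁴ dvol ≤ 3 area`. Then: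

1. `m = 1` almost everywhere;
2. `∫ ψ u² dvol → ∫ ψ dvol` and `∫ ψ u³ dvol → 0` for all bounded smooth functions `ψ` on `Ω`, and
   `∫ ψ u⁴ dvol → 3 ∫ ψ dvol` for all bounded continuous functions `ψ` on `Ω`;
3. `∫ ψ W_a W_b W_c dvol → 0` for all integers `a, b, c` and all test functions `ψ`;
4. `∫ ψ W_a W_b W_c W_d dvol → ∫ ψ G_κ(a,b,c,d) dvol` for all integers `a, b, c, d` and all test
   functions `ψ`. -/
theorem result (Ω : Set ℂ) (hΩ : IsOpen Ω) (hne : Ω.Nonempty) (ρ : ℂ → ℝ)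
    (hρ : ContDiffOn ℝ ∞ ρ Ω) (hρ0 : ∀ z ∈ Ω, 0 < ρ z) (hfin : area Ω ρ Set.univ ≠ ⊤)
    (lam : ℕ → ℝ) (hpos : ∀ n, 0 < lam n)
    (hlam : Tendsto lam atTop atTop) (u : ℕ → ℂ → ℝ) (hu : ∀ n, ContDiffOn ℝ ∞ (u n) Ω)
    (heq : ∀ n, ∀ z ∈ Ω, lap (u n) z + lam n * (ρ z * u n z) = 0)
    (m : ℂ → ℝ) (hm : ∀ K : Set ℂ, IsCompact K → K ⊆ Ω → MemLp m 2 (volume.restrict K))
    (κ : Kernel ℂ ℝ) [IsMarkovKernel κ]
    (hsc : ∀ φ, TF Ω φ → ∀ k : ℕ, Tendsto (fun n => ∫ z, ((φ z * ρ z : ℝ) : ℂ) *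
      ((u n z : ℂ) * (D ρ (lam n))^[k] (fun w => (u n w : ℂ)) z)) atTop
      (𝓝 (∫ z, ((φ z * ρ z : ℝ) : ℂ) * ((m z : ℂ) * ∫ α, sym α ^ k ∂(κ z)))))
    (hpar : ∀ᵐ z ∂(volume.restrict Ω), parallel (κ z) = 0)
    (h4i : ∀ n, Integrable (fun z => u n z ^ 4) (area Ω ρ))
    (h2 : Tendsto (fun n => ∫ z, u n z ^ 2 ∂(area Ω ρ)) atTop
      (𝓝 (area Ω ρ Set.univ).toReal))
    (h4 : ∀ ε : ℝ, 0 < ε → ∀ᶠ n in atTop,
      ∫ z, u n z ^ 4 ∂(area Ω ρ) ≤ 3 * (area Ω ρ Set.univ).toReal + ε) :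
    (∀ᵐ z ∂(volume.restrict Ω), m z = 1) ∧
    (∀ ψ : ℂ → ℝ, ContDiffOn ℝ ∞ ψ Ω → (∃ M : ℝ, ∀ z ∈ Ω, |ψ z| ≤ M) →
      Tendsto (fun n => ∫ z, ψ z * u n z ^ 2 ∂(area Ω ρ)) atTop (𝓝 (∫ z, ψ z ∂(area Ω ρ))) ∧
      Tendsto (fun n => ∫ z, ψ z * u n z ^ 3 ∂(area Ω ρ)) atTop (𝓝 0)) ∧
    (∀ ψ : ℂ → ℝ, ContinuousOn ψ Ω → (∃ M : ℝ, ∀ z ∈ Ω, |ψ z| ≤ M) →
      Tendsto (fun n => ∫ z, ψ z * u n z ^ 4 ∂(area Ω ρ)) atTop
        (𝓝 (3 * ∫ z, ψ z ∂(area Ω ρ)))) ∧
    (∀ ψ : ℂ → ℝ, TF Ω ψ → ∀ a b c : ℤ, Tendsto (fun n => ∫ z, ((ψ z * ρ z : ℝ) : ℂ) *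
      (W ρ (lam n) (u n) a z * W ρ (lam n) (u n) b z * W ρ (lam n) (u n) c z)) atTop (𝓝 0)) ∧
    (∀ ψ : ℂ → ℝ, TF Ω ψ → ∀ a b c d : ℤ, Tendsto (fun n => ∫ z, ((ψ z * ρ z : ℝ) : ℂ) *
      (W ρ (lam n) (u n) a z * W ρ (lam n) (u n) b z * W ρ (lam n) (u n) c z *
        W ρ (lam n) (u n) d z)) atTop
      (𝓝 (∫ z, ((ψ z * ρ z : ℝ) : ℂ) * G κ a b c d z))) := by
  have X : Pool.Agent.Q175.RW.FT.LE Ω ρ lam u m κ := by
    refine ⟨hΩ, hne, hρ, hρ0, hfin, hpos, hlam, hu, heq, hm, fun φ hφ k => hsc φ hφ k, ?_, h4i,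
      h2, h4⟩
    filter_upwards [hpar] with z hz
    simp only [Pool.Agent.TH294.RG.par, Pool.Agent.TH294.RG.ea_par]
    exact hz
  have Y := X.LD
  have := Y.fm
  have hW : ∀ n k, W ρ (lam n) (u n) k = Pool.Agent.TH294.RS.WW ρ (lam n) (u n) k := by
    intro n k
    cases k with
    | ofNat k => rfl
    | negSucc k => rfl
  -- third moments of the field
  have third : ∀ ψ : ℂ → ℝ, TF Ω ψ → ∀ a b c : ℤ, Tendsto (fun n => ∫ z, ((ψ z * ρ z : ℝ) : ℂ) *
      (W ρ (lam n) (u n) a z * W ρ (lam n) (u n) b z * W ρ (lam n) (u n) c z)) atTop (𝓝 0) := by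
    intro ψ hψ a b c
    simp only [hW]
    exact Pool.Agent.Q175.RW.FT.third Y hψ a b c
  refine ⟨X.one, fun ψ sψ ⟨M, hM⟩ => ⟨Pool.Agent.Q175.RW.FT.weak2 Y sψ hM,
    Pool.Agent.Q175.RW.FT.weak3 Y sψ hM⟩, fun ψ cψ ⟨M, hM⟩ =>
    Pool.Agent.Q175.RW.FT.weak4 Y cψ hM, third, fun ψ hψ a b c d => ?_⟩
  · have key := Pool.Agent.Q175.RW.FT.fourth Y hψ a b c d
    have e1 : ∀ k n z, Pool.Agent.TH294.RG.W1 (fun z => 1 / √(ρ z)) (1 / √(lam n)) (u n) k z =
        W ρ (lam n) (u n) k z := by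
      intro k n z
      rw [hW, Pool.Agent.TH294.RG.W1_eq (fun z => 1 / √(ρ z)) (fun n => 1 / √(lam n)) u k n z,
        Pool.Agent.TH294.RS.WW_eq ρ hpos u]
    have hG : ∀ z, G κ a b c d z = Pool.Agent.TH294.RG.GG' (Pool.Agent.TH294.RG.MM (fun _ => 1)
        Pool.Agent.TH294.RG.ea κ) a b c d z := by
      intro z
      have hC : ∀ a b, C κ a b z = Pool.Agent.TH294.RG.C2 (fun _ => 1) κ a b z := by
        intro a b
        have e : Pool.Agent.TH294.RG.C2 (fun _ => 1) κ a b z = if Even (a + b) then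
          (-1) ^ a.natAbs * (((1 : ℝ) : ℂ) * ∫ α, sym α ^ (a + b) ∂(κ z)) else 0 := rfl
        rw [e, ofReal_one, one_mul]; rfl
      simp only [Pool.Agent.TH294.RG.GG', Pool.Agent.TH294.RG.cc_C2, G, hC]
    simp only [e1, ← hG] at key
    exact key

end Pool.Agent.Results.MP_4fa179_mp.FourthMomentTheorem
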