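import Pool.Agent.TH294.RG.Fin
import Pool.Agent.TH294.RG.SpecM

/-!
# The power spectrum of the square of Laplace eigenfunctions on surfaces (MP_4fa179_mp)

A Riemannian surface in isothermal coordinates: an open set `Ω ⊆ ℂ` with the metric `ρ |dz|²`,
area measure `ρ dx dy`. `dx f z`, `dy f z` are the partial derivatives `fderiv ℝ f z 1`,
`fderiv ℝ f z I`, and `lap f = dx (dx f) + dy (dy f)`; `TF Ω φ` says that `φ : ℂ → ℝ` is smooth
with compact support contained in `Ω`.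

`L ρ λ g = - (λ ρ)⁻¹ (∂x² + ∂y²) g` is the (nonnegative) Laplace-Beltrami operator of the metric
rescaled by `λ`, in which `u` has eigenvalue `1`; `opF F ρ λ g = F(L) g` for a real polynomial `F`.
In the rescaled metric the operator `D = (λ ρ)^{-1/2} (∂x - i ∂y)` is the derivative
`∂_1 - i ∂_2` in the conformal orthonormal frame; at a unit momentum of direction `α` its symbol is
`sym α = i exp(-iα)`. The hypothesis `hsc` says that `u n` has the semiclassical measure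
`m(z) ν_z(dα) dvol(z)` on the unit cosphere bundle over `Ω`. Quantum ergodicity is the case `m = 1`,
`ν_z` uniform.

The theorem computes `∫ φ (F(L) u²)² dvol` for every `F` in terms of the single moment
`∫ φ u⁴ dvol`. If `F(0) = F(4) = 0` there is no unknown left: the part of `u²` with frequencies
away from `0` and from twice the frequency of `u` has the mean square of the Gaussian wave with the
same semiclassical measure.
-/

set_option autoImplicit false
open MeasureTheory Filter Topology Complex ProbabilityTheory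
open scoped ContDiff ENNReal

namespace Pool.Agent.Results.MP_4fa179_mp.PowerSpectrum

open Pool.Agent.W745.RW

/-- the normalised frame derivative `(λ ρ)^{-1/2} (∂x - i ∂y)` -/
noncomputable def D (ρ : ℂ → ℝ) (lam : ℝ) (f : ℂ → ℂ) (z : ℂ) : ℂ :=
  ((1 / √(lam * ρ z) : ℝ) : ℂ) * (dx f z - I * dy f z)

/-- the symbol of `D` at a unit momentum of direction `α` -/
noncomputable def sym (α : ℝ) : ℂ := I * Complex.exp (-(α : ℂ) * I)

/-- the Laplace-Beltrami operator `-ρ⁻¹ (∂x² + ∂y²)` divided by `lam` -/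
noncomputable def L (ρ : ℂ → ℝ) (lam : ℝ) (g : ℂ → ℝ) (z : ℂ) : ℝ :=
  -(dx (dx g) z + dy (dy g) z) / (lam * ρ z)

/-- the polynomial `F` in the operator `L ρ lam`, applied to `g` -/
noncomputable def opF (F : Polynomial ℝ) (ρ : ℂ → ℝ) (lam : ℝ) (g : ℂ → ℝ) (z : ℂ) : ℝ :=
  F.sum fun i c => c * (L ρ lam)^[i] g z

/-- the mean of `(F(L) Ψ²)²` for the Gaussian wave `Ψ` of variance `1` with directions of law `ν`:
`F(0)² + ∫∫ (F(2 - 2 cos (α - β))² + F(2 + 2 cos (α - β))²) dν(α) dν(β)` -/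
noncomputable def gauss (F : Polynomial ℝ) (ν : Measure ℝ) : ℝ :=
  F.eval 0 ^ 2 + ∫ p, (F.eval (2 - 2 * Real.cos (p.1 - p.2)) ^ 2 +
    F.eval (2 + 2 * Real.cos (p.1 - p.2)) ^ 2) ∂(ν.prod ν)

/-- **Result.** Let `u n` be real solutions of `Δu + λ_n u = 0` for the metric `ρ |dz|²` on `Ω`
(that is `lap u + λ_n ρ u = 0`), `λ_n → ∞`, with semiclassical measure `m(z) ν_z dvol(z)`, `m`
locally square integrable. Let `K ⊆ Ω` be compact and `φ` a test function supported in its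
interior. Then for every real polynomial `F`, `∫ φ (F(L) u²)² dvol` equals the Gaussian value
`∫ φ m² gauss F ν_z dvol` plus `(2 F(0)² + F(4)²) / 3` times the defect
`∫ φ u⁴ dvol - 3 ∫ φ m² dvol` of the fourth moment, up to an error `o(1 + ∫_K u⁴)`. -/
theorem result (Ω : Set ℂ) (hΩ : IsOpen Ω) (ρ : ℂ → ℝ) (hρ : ContDiffOn ℝ ∞ ρ Ω)
    (hρ0 : ∀ z ∈ Ω, 0 < ρ z) (lam : ℕ → ℝ) (hpos : ∀ n, 0 < lam n)
    (hlam : Tendsto lam atTop atTop) (u : ℕ → ℂ → ℝ) (hu : ∀ n, ContDiffOn ℝ ∞ (u n) Ω)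
    (heq : ∀ n, ∀ z ∈ Ω, lap (u n) z + lam n * (ρ z * u n z) = 0)
    (m : ℂ → ℝ) (hm : ∀ K : Set ℂ, IsCompact K → K ⊆ Ω → MemLp m 2 (volume.restrict K))
    (ν : Kernel ℂ ℝ) [IsMarkovKernel ν]
    (hsc : ∀ φ, TF Ω φ → ∀ k : ℕ, Tendsto (fun n => ∫ z, ((φ z * ρ z : ℝ) : ℂ) *
      ((u n z : ℂ) * (D ρ (lam n))^[k] (fun w => (u n w : ℂ)) z)) atTop
      (𝓝 (∫ z, ((φ z * ρ z : ℝ) : ℂ) * ((m z : ℂ) * ∫ α, sym α ^ k ∂(ν z)))))
    (K : Set ℂ) (hK : IsCompact K) (hKΩ : K ⊆ Ω) (φ : ℂ → ℝ) (hφ : TF (interior K) φ)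
    (F : Polynomial ℝ) :
    Tendsto (fun n => ((∫ z, φ z * ρ z * opF F ρ (lam n) (fun w => u n w ^ 2) z ^ 2)
      - (2 * F.eval 0 ^ 2 + F.eval 4 ^ 2) / 3 *
        ((∫ z, φ z * ρ z * u n z ^ 4) - 3 * ∫ z, φ z * ρ z * m z ^ 2)
      - ∫ z, φ z * ρ z * (m z ^ 2 * gauss F (ν z))) /
      (1 + ∫ z in K, u n z ^ 4)) atTop (𝓝 0) := by
  have H := Pool.Agent.TH294.RG.rawG_met (M := Pool.Agent.TH294.RG.MM m
    Pool.Agent.TH294.RG.ea ν) hΩ hpos hlam hρ hρ0 hu heq hsc
  have hKi : interior K ⊆ Ω := interior_subset.trans hKΩ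
  have hφ' : TF (interior K) (fun z => φ z * ρ z) :=
    Pool.Agent.TH294.RS.TF.mulc isOpen_interior hφ (hρ.mono hKi)
  have key := Pool.Agent.TH294.RG.spec_real (T := fun n => L ρ (lam n))
    Pool.Agent.TH294.RG.ea_meas Pool.Agent.TH294.RG.ea_norm hm H hK hKΩ hφ' F (by
      intro n g z hz
      have h2 : (1 / √(lam n)) ^ 2 = 1 / lam n := by
        rw [div_pow, Real.sq_sqrt (hpos n).le, one_pow]
      have h3 : (1 / √(ρ z)) ^ 2 = 1 / ρ z := by
        rw [div_pow, Real.sq_sqrt (hρ0 z (hKi hz)).le, one_pow]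
      have h4 := (hpos n).ne'
      have h5 := (hρ0 z (hKi hz)).ne'
      simp only [L, Pool.Agent.TH294.RG.sR, h2, h3, lap]
      field_simp)
  have hg : ∀ z, F.eval 0 ^ 2 + Pool.Agent.TH294.RG.ang F Pool.Agent.TH294.RG.ea (ν z) =
      gauss F (ν z) := by
    intro z
    rw [Pool.Agent.TH294.RG.ang_ea]
    rfl
  simp only [hg] at key
  refine key.congr fun n => ?_
  have e3 : ∫ z, φ z * ρ z * (3 * m z ^ 2) = 3 * ∫ z, φ z * ρ z * m z ^ 2 := by
    rw [← integral_const_mul]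
    congr 1; funext z; ring
  rw [e3]
  rfl

end Pool.Agent.Results.MP_4fa179_mp.PowerSpectrum
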