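import Pool.Agent.Q175.RW.SX6

/-!
# The sixth moment of eigenfunctions with arbitrary semiclassical directions (MP_4fa179_mp)

A Riemannian surface in isothermal coordinates: an open set `Ω ⊆ ℂ` with the metric `ρ |dz|²`
(a compact surface cut along arcs, or any open part of a surface). `dx f z`, `dy f z` are the
partial derivatives `fderiv ℝ f z 1`, `fderiv ℝ f z I`, and `lap f = dx (dx f) + dy (dy f)`;
`TF Ω φ` says that `φ : ℂ → ℝ` is smooth with compact support contained in `Ω`.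

In the metric rescaled by `λ` the operator `D = (λ ρ)^{-1/2} (∂x - i ∂y)` is the derivative
`∂_1 - i ∂_2` in the conformal orthonormal frame; at a unit momentum of direction `α` its symbol is
`sym α = i exp(-iα)`. The hypothesis `hsc` says that the semiclassical measure of `u n` is
`κ_z(dα) dvol(z)`: it projects to the area measure, with conditional laws `κ z` of the directions.
Nothing is assumed about `κ`; quantum ergodicity is the case of uniform `κ z`, where the bound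
is `10`.

No bound of any moment is assumed. For `κ z` without atoms the bound is at least `75/8 = 9.375`;
Hoelder's inequality and the sharp lower bound `3` of the fourth moment give `9`. The random wave
of the problem has sixth moment `15`.

Proof idea. With `P' = w` one has, up to `o(1)`, `∫ ψ (2 u P(u) - w(u)²) ≤ ∫ ψ |∇u|⁴/λ² =
∫ ψ u⁴ - ∫ ψ (2 - 2 E cos²)`, and `∫ ψ u⁴ ≥ ∫ ψ (3 - 3/2 parallel)`; the numerical inequality
`10 - 10.7 (x² - 1) + 6.7 (x⁴ - 3) ≤ x⁶ + 5/8 (2 x P(x) - w(x)² - x⁴ + 1)` for an explicit `w`.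
-/

set_option autoImplicit false
open MeasureTheory Filter Topology Complex ProbabilityTheory
open scoped ContDiff ENNReal

namespace Pool.Agent.Results.MP_4fa179_mp.SixthMoment

open Pool.Agent.W745.RW (TF dx dy lap)

/-- the normalised frame derivative `(λ ρ)^{-1/2} (∂x - i ∂y)` -/
noncomputable def D (ρ : ℂ → ℝ) (lam : ℝ) (f : ℂ → ℂ) (z : ℂ) : ℂ :=
  ((1 / √(lam * ρ z) : ℝ) : ℂ) * (dx f z - I * dy f z)

/-- the symbol of `D` at a unit momentum of direction `α` -/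
noncomputable def sym (α : ℝ) : ℂ := I * Complex.exp (-(α : ℂ) * I)

/-- the probability that two independent directions of law `ν` are parallel (equal or opposite) -/
noncomputable def parallel (ν : Measure ℝ) : ℝ :=
  (ν.prod ν).real {p | Real.sin (p.1 - p.2) = 0}

/-- the mean of `2 cos²` of the angle between two independent directions of law `ν`; it lies
between `1` (for uniform directions) and `2` -/
noncomputable def angle (ν : Measure ℝ) : ℝ :=
  ∫ p, 2 * Real.cos (p.1 - p.2) ^ 2 ∂(ν.prod ν)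

/-- **Result.** Let `Ω` be a surface with metric `ρ |dz|²` and `u n` real solutions of
`Δu + λ_n u = 0` (that is `lap u + λ_n ρ u = 0`), `λ_n → ∞`, with semiclassical measure
`κ_z dvol(z)`. Then for every test function `ψ ≥ 0` on `Ω`:
`liminf ∫ ψ u⁶ dvol ≥ ∫ ψ (10 - 5/8 (angle(κ_z) - 1) - 201/20 parallel(κ_z)) dvol`; if almost
all `κ_z` have no atoms modulo `π`, then `liminf ∫ ψ u⁶ dvol ≥ 75/8 ∫ ψ dvol`. -/
theorem result (Ω : Set ℂ) (ρ : ℂ → ℝ) (lam : ℕ → ℝ) (u : ℕ → ℂ → ℝ)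
    (κ : Kernel ℂ ℝ) [IsMarkovKernel κ] (oΩ : IsOpen Ω)
    (sρ : ContDiffOn ℝ ∞ ρ Ω) (pρ : ∀ z ∈ Ω, 0 < ρ z)
    (lp : ∀ n, 0 < lam n) (ll : Tendsto lam atTop atTop)
    (su : ∀ n, ContDiffOn ℝ ∞ (u n) Ω)
    (eq : ∀ n, ∀ z ∈ Ω, lap (u n) z + lam n * (ρ z * u n z) = 0)
    (hsc : ∀ φ, TF Ω φ → ∀ k : ℕ, Tendsto (fun n => ∫ z, ((φ z * ρ z : ℝ) : ℂ) *
      ((u n z : ℂ) * (D ρ (lam n))^[k] (fun w => (u n w : ℂ)) z)) atTop
      (𝓝 (∫ z, ((φ z * ρ z : ℝ) : ℂ) * ∫ α, sym α ^ k ∂(κ z))))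
    (ψ : ℂ → ℝ) (hψ : TF Ω ψ) (hψ0 : ∀ z, 0 ≤ ψ z) (ε : ℝ) (hε : 0 < ε) :
    (∀ᶠ n in atTop,
      (∫ z, ψ z * (10 - 5 / 8 * (angle (κ z) - 1) - 201 / 20 * parallel (κ z)) * ρ z) - ε ≤
        ∫ z, ψ z * u n z ^ 6 * ρ z) ∧
    ((∀ᵐ z ∂(volume.restrict Ω), parallel (κ z) = 0) → ∀ᶠ n in atTop,
      75 / 8 * (∫ z, ψ z * ρ z) - ε ≤ ∫ z, ψ z * u n z ^ 6 * ρ z) := by
  have H : Pool.Agent.TH294.RG.RawG Ω (fun z => 1 / √(ρ z)) (fun n => 1 / √(lam n)) u
      (Pool.Agent.TH294.RG.MM (fun _ => 1) Pool.Agent.TH294.RG.ea κ) := by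
    refine Pool.Agent.TH294.RG.rawG_met oΩ lp ll sρ pρ su eq fun φ hφ k => ?_
    have h1 := hsc φ hφ k
    have e : ∫ z, ((φ z * ρ z : ℝ) : ℂ) *
        Pool.Agent.TH294.RG.MM (fun _ => 1) Pool.Agent.TH294.RG.ea κ k z =
        ∫ z, ((φ z * ρ z : ℝ) : ℂ) * ∫ α, sym α ^ k ∂(κ z) := by
      congr 1; funext z
      simp only [Pool.Agent.TH294.RG.MM, ofReal_one, one_mul]
      rfl
    rw [e]
    exact h1
  have tφ : TF Ω (fun z => ψ z * ρ z) := Pool.Agent.TH294.RS.TF.mulc oΩ hψ sρ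
  have tφ0 : ∀ z, 0 ≤ ψ z * ρ z := fun z => by
    by_cases hz : z ∈ Ω
    · exact mul_nonneg (hψ0 z) (pρ z hz).le
    · rw [Pool.Agent.TH294.RS.TF.zero hψ hz, zero_mul]
  have k := Pool.Agent.Q175.RW.SX.six_all oΩ H tφ tφ0 hε
  have eR : ∀ n, ∫ z, ψ z * ρ z * u n z ^ 6 = ∫ z, ψ z * u n z ^ 6 * ρ z := fun n => by
    congr 1; funext z; ring
  have eW : ∀ z, Pool.Agent.Q175.RW.SX.W6 κ z =
      10 - 5 / 8 * (angle (κ z) - 1) - 201 / 20 * parallel (κ z) := fun z => by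
    unfold Pool.Agent.Q175.RW.SX.W6
    simp only [Pool.Agent.TH294.RG.par, Pool.Agent.TH294.RG.ea_par]
    rfl
  have eL : ∫ z, ψ z * ρ z * Pool.Agent.Q175.RW.SX.W6 κ z =
      ∫ z, ψ z * (10 - 5 / 8 * (angle (κ z) - 1) - 201 / 20 * parallel (κ z)) * ρ z := by
    congr 1; funext z
    rw [eW]; ring
  refine ⟨?_, fun hpar => ?_⟩
  · refine k.mono fun n hn => ?_
    rw [eR, eL] at hn
    exact hn
  · refine k.mono fun n hn => ?_
    rw [eR] at hn
    refine le_trans ?_ hn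
    have iφ : Integrable (fun z => ψ z * ρ z) :=
      tφ.1.continuous.integrable_of_hasCompactSupport tφ.2.1
    have low : 75 / 8 * (∫ z, ψ z * ρ z) ≤ ∫ z, ψ z * ρ z * Pool.Agent.Q175.RW.SX.W6 κ z := by
      rw [← integral_const_mul]
      refine integral_mono_ae (iφ.const_mul _) (Pool.Agent.Q175.RW.SX.iφb iφ
        Pool.Agent.Q175.RW.SX.W6_meas (C := 21) Pool.Agent.Q175.RW.SX.W6_bd) ?_
      have h1 : ∀ᵐ z, z ∈ Ω → parallel (κ z) = 0 := (ae_restrict_iff' oΩ.measurableSet).1 hpar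
      filter_upwards [h1] with z hz
      by_cases hzΩ : z ∈ Ω
      · have h2 := Pool.Agent.Q175.RW.SX.ang2_bd κ z
        have h3 : Pool.Agent.Q175.RW.SX.ang2 κ z = angle (κ z) := rfl
        show 75 / 8 * (ψ z * ρ z) ≤ ψ z * ρ z * Pool.Agent.Q175.RW.SX.W6 κ z
        rw [eW, hz hzΩ]
        rw [h3] at h2
        have h4 := mul_le_mul_of_nonneg_left (show (75 / 8 : ℝ) ≤
          10 - 5 / 8 * (angle (κ z) - 1) - 201 / 20 * 0 by linarith [h2.2]) (tφ0 z)
        linarith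
      · show 75 / 8 * (ψ z * ρ z) ≤ ψ z * ρ z * Pool.Agent.Q175.RW.SX.W6 κ z
        rw [Pool.Agent.TH294.RS.TF.zero hψ hzΩ]; simp
    linarith

end Pool.Agent.Results.MP_4fa179_mp.SixthMoment
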