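import Pool.Agent.Q175.RW.TP

/-!
# Squares of eigenfunctions and products of eigenfunctions of lower frequency (MP_4fa179_mp)

A Riemannian surface in isothermal coordinates: an open set `Ω ⊆ ℂ` with the metric `ρ |dz|²`,
area measure `ρ dx dy`. `dx f z`, `dy f z` are the partial derivatives `fderiv ℝ f z 1`,
`fderiv ℝ f z I`, and `lap f = dx (dx f) + dy (dy f)`; `TF Ω φ` says that `φ : ℂ → ℝ` is smooth
with compact support contained in `Ω`.

In the metric rescaled by `λ` the operator `D = (λ ρ)^{-1/2} (∂x - i ∂y)` is the derivative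
`∂_1 - i ∂_2` in the conformal orthonormal frame; at a unit momentum of direction `α` its symbol is
`sym α = i exp(-iα)`. The hypothesis `hsc` says that `u n` has the semiclassical measure
`m(z) ν_z(dα) dvol(z)` on the unit cosphere bundle over `Ω`. Quantum ergodicity is the case `m = 1`,
`ν_z` uniform. The hypothesis `hpar` says that `ν_z` has no atoms modulo `π`.
-/

set_option autoImplicit false
open MeasureTheory Filter Topology Complex ProbabilityTheory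
open scoped ContDiff ENNReal

namespace Pool.Agent.Results.MP_4fa179_mp.SlowFactors

open Pool.Agent.W745.RW

/-- the normalised frame derivative `(λ ρ)^{-1/2} (∂x - i ∂y)` -/
noncomputable def D (ρ : ℂ → ℝ) (lam : ℝ) (f : ℂ → ℂ) (z : ℂ) : ℂ :=
  ((1 / √(lam * ρ z) : ℝ) : ℂ) * (dx f z - I * dy f z)

/-- the symbol of `D` at a unit momentum of direction `α` -/
noncomputable def sym (α : ℝ) : ℂ := I * Complex.exp (-(α : ℂ) * I)

/-- the probability that two independent directions of law `ν` are parallel (equal or opposite) -/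
noncomputable def parallel (ν : Measure ℝ) : ℝ :=
  (ν.prod ν).real {p | Real.sin (p.1 - p.2) = 0}

/-- `v n` are smooth real solutions of `Δv + μ_n v = 0` for the metric `ρ |dz|²` on `Ω`, `μ_n > 0`
and `μ_n → ∞` -/
structure Eigen (Ω : Set ℂ) (ρ : ℂ → ℝ) (mu : ℕ → ℝ) (v : ℕ → ℂ → ℝ) : Prop where
  pos : ∀ n, 0 < mu n
  lim : Tendsto mu atTop atTop
  smooth : ∀ n, ContDiffOn ℝ ∞ (v n) Ω
  eq : ∀ n, ∀ z ∈ Ω, lap (v n) z + mu n * (ρ z * v n z) = 0

/-- the normalising factor `1 + ∫_K v⁴` -/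
noncomputable def nrm (K : Set ℂ) (v : ℂ → ℝ) : ℝ := 1 + ∫ z in K, v z ^ 4

/-- **Result.** Let `u n` be real eigenfunctions for the metric `ρ |dz|²` on `Ω`, with eigenvalues
`λ_n → ∞` and semiclassical measure `m(z) ν_z dvol(z)`, `m` smooth and `ν_z` without atoms modulo
`π`. Let `g1 n`, `g2 n` be real eigenfunctions with eigenvalues `μ1 n, μ2 n → ∞` such that
`μ_i n / λ_n → 0`; they need not be normalised. Let `K ⊆ Ω` be compact, `φ ≥ 0` a test function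
supported in its interior and `ε > 0`. Then, for all large `n`,

`(∫ φ (u² - m) g1 g2 dvol)² ≤ (2/3) (∫ φ u⁴ dvol - 3 ∫ φ m² dvol) ∫ φ (g1 g2)² dvol
  + ε nrm(u) (nrm(g1) nrm(g2))^{1/2}`, with `nrm v = 1 + ∫_K v⁴`. -/
theorem result (Ω : Set ℂ) (hΩ : IsOpen Ω) (ρ : ℂ → ℝ) (hρ : ContDiffOn ℝ ∞ ρ Ω)
    (hρ0 : ∀ z ∈ Ω, 0 < ρ z) (lam mu1 mu2 : ℕ → ℝ) (u g1 g2 : ℕ → ℂ → ℝ)
    (hu : Eigen Ω ρ lam u) (hg1 : Eigen Ω ρ mu1 g1) (hg2 : Eigen Ω ρ mu2 g2)
    (hr1 : Tendsto (fun n => mu1 n / lam n) atTop (𝓝 0))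
    (hr2 : Tendsto (fun n => mu2 n / lam n) atTop (𝓝 0))
    (m : ℂ → ℝ) (hm : ContDiffOn ℝ ∞ m Ω) (ν : Kernel ℂ ℝ) [IsMarkovKernel ν]
    (hsc : ∀ φ, TF Ω φ → ∀ k : ℕ, Tendsto (fun n => ∫ z, ((φ z * ρ z : ℝ) : ℂ) *
      ((u n z : ℂ) * (D ρ (lam n))^[k] (fun w => (u n w : ℂ)) z)) atTop
      (𝓝 (∫ z, ((φ z * ρ z : ℝ) : ℂ) * ((m z : ℂ) * ∫ α, sym α ^ k ∂(ν z)))))
    (hpar : ∀ᵐ z ∂(volume.restrict Ω), parallel (ν z) = 0)
    (K : Set ℂ) (hK : IsCompact K) (hKΩ : K ⊆ Ω) (φ : ℂ → ℝ) (hφ : TF (interior K) φ)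
    (hφ0 : ∀ z, 0 ≤ φ z) (ε : ℝ) (hε : 0 < ε) :
    ∀ᶠ n in atTop, (∫ z, φ z * ρ z * ((u n z ^ 2 - m z) * (g1 n z * g2 n z))) ^ 2 ≤
      2 / 3 * ((∫ z, φ z * ρ z * u n z ^ 4) - 3 * ∫ z, φ z * ρ z * m z ^ 2) *
        (∫ z, φ z * ρ z * (g1 n z * g2 n z) ^ 2) +
        ε * nrm K (u n) * √(nrm K (g1 n) * nrm K (g2 n)) := by
  have hl : ∀ f : ℕ → ℝ, Tendsto f atTop atTop → Tendsto (fun n => 1 / √(f n)) atTop (𝓝 0) := by
    intro f hf
    have : Tendsto (fun n => √(f n)) atTop atTop := Real.tendsto_sqrt_atTop.comp hf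
    exact (this.inv_tendsto_atTop).congr (fun n => by simp [one_div])
  have hq : ∀ x : ℝ, 0 < x → (1 / √x) ^ 2 = 1 / x := fun x hx => by
    rw [div_pow, Real.sq_sqrt hx.le, one_pow]
  have H := Pool.Agent.TH294.RG.rawG_met (M := Pool.Agent.TH294.RG.MM m
    Pool.Agent.TH294.RG.ea ν) hΩ hu.pos hu.lim hρ hρ0 hu.smooth hu.eq hsc
  have hp : ∀ᵐ z ∂(volume.restrict Ω), Pool.Agent.TH294.RG.par Pool.Agent.TH294.RG.ea (ν z) = 0 := by
    filter_upwards [hpar] with z hz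
    simp only [Pool.Agent.TH294.RG.par, Pool.Agent.TH294.RG.ea_par]
    exact hz
  have hm2 : ∀ K' : Set ℂ, IsCompact K' → K' ⊆ Ω → MemLp m 2 (volume.restrict K') := by
    intro K' hK' hK'Ω
    have cm : ContinuousOn m K' := hm.continuousOn.mono hK'Ω
    obtain ⟨C, hC⟩ := hK'.exists_bound_of_continuousOn cm
    have : IsFiniteMeasure (volume.restrict K') := ⟨by simpa using hK'.measure_lt_top⟩
    exact MemLp.of_bound (cm.aestronglyMeasurable hK'.measurableSet) C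
      ((ae_restrict_mem hK'.measurableSet).mono hC)
  have hKi : interior K ⊆ Ω := interior_subset.trans hKΩ
  have hφ' : TF (interior K) (fun z => φ z * ρ z) :=
    Pool.Agent.TH294.RS.TF.mulc isOpen_interior hφ (hρ.mono hKi)
  have hφ0' : ∀ z, 0 ≤ φ z * ρ z := by
    intro z
    by_cases hz : z ∈ interior K
    · exact mul_nonneg (hφ0 z) (hρ0 z (hKi hz)).le
    · rw [Pool.Agent.TH294.RS.TF.zero hφ hz, zero_mul]
  have hrat : ∀ (mu : ℕ → ℝ), (∀ n, 0 < mu n) → Tendsto (fun n => mu n / lam n) atTop (𝓝 0) →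
      Tendsto (fun n => (1 / √(lam n)) / (1 / √(mu n))) atTop (𝓝 0) := by
    intro mu mpos hr
    have h1 := (Real.continuous_sqrt.tendsto _).comp hr
    rw [Real.sqrt_zero] at h1
    refine h1.congr fun n => ?_
    simp only [Function.comp_def]
    rw [Real.sqrt_div (mpos n).le]
    field_simp
  have heig : ∀ (mu : ℕ → ℝ) (g : ℕ → ℂ → ℝ), Eigen Ω ρ mu g → ∀ n, ∀ z ∈ Ω,
      (1 / √(mu n)) ^ 2 * ((1 / √(ρ z)) ^ 2 * lap (g n) z) + g n z = 0 := by
    intro mu g hg n z hz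
    have h1 := hg.eq n z hz
    have h3 := (hg.pos n).ne'
    have h5 := (hρ0 z hz).ne'
    have h4 : lap (g n) z = -(mu n * (ρ z * g n z)) := by linarith
    rw [hq _ (hg.pos n), hq _ (hρ0 z hz), h4]
    field_simp
    ring
  have sq1 : ∀ (mu : ℕ → ℝ), (∀ n, 0 < mu n) → ∀ n, 0 < 1 / √(mu n) := fun mu mpos n =>
    div_pos one_pos (Real.sqrt_pos.2 (mpos n))
  exact Pool.Agent.Q175.RW.TP.slow2 hΩ hm2 hm hp H (sq1 mu1 hg1.pos) (hl mu1 hg1.lim)
    (hrat mu1 hg1.pos hr1) hg1.smooth (heig mu1 g1 hg1) (sq1 mu2 hg2.pos) (hl mu2 hg2.lim)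
    (hrat mu2 hg2.pos hr2) hg2.smooth (heig mu2 g2 hg2) hK hKΩ hφ' hφ0' hε

end Pool.Agent.Results.MP_4fa179_mp.SlowFactors
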